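import Pool.Agent.R524.GD.Window
import Pool.Agent.H361R2.PP.Cor6

/-!
# The number of gaps with normalised length in a short window (helper524)
-/

set_option autoImplicit false

open Finset Pool.Agent.H357R2.SI Filter

namespace Pool.Agent.R524.GD

open Pool.Agent.H361R2.PP (P P_tendsto gp)

theorem P_upper : ∀ᶠ j : ℕ in atTop, (P j : ℝ) ≤ 2 * ((j : ℝ) + 1) * Real.log (P j) := by
  have h1 := Pool.Agent.Helper923.PNT.pi_tendsto.comp P_tendsto
  have h2 : Tendsto (fun j : ℕ => ((j : ℝ) + 1) * Real.log (P j) / P j) atTop (nhds 1) := by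
    refine h1.congr fun j => ?_
    simp only [Function.comp_apply, Nat.floor_natCast]
    have h3 : Nat.primeCounting (P j) = j + 1 := by
      unfold P Nat.primeCounting Nat.primeCounting'
      rw [Nat.count_succ, Nat.count_nth_of_infinite Nat.infinite_setOfPred_prime,
        if_pos (Nat.prime_nth_prime j)]
    rw [h3]
    push_cast
    ring
  filter_upwards [h2.eventually (lt_mem_nhds (show (1 / 2 : ℝ) < 1 by norm_num))] with j hj
  have hP : (0 : ℝ) < P j := by
    have := (Nat.prime_nth_prime j).pos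
    unfold P
    exact_mod_cast this
  rw [lt_div_iff₀ hP] at hj
  linarith

theorem P_mono {i j : ℕ} (h : i ≤ j) : P i ≤ P j :=
  (Nat.nth_strictMono Nat.infinite_setOfPred_prime).monotone h

theorem P_lt {i j : ℕ} (h : i < j) : P i < P j :=
  Nat.nth_strictMono Nat.infinite_setOfPred_prime h

theorem le_P (j : ℕ) : j ≤ P j :=
  (Nat.nth_strictMono Nat.infinite_setOfPred_prime).le_apply

theorem P_prime (j : ℕ) : (P j).Prime := Nat.prime_nth_prime j

/-- gaps in a window of differences -/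
theorem card_gaps (N a b : ℕ) (T : Finset ℕ)
    (hT : ∀ n ∈ T, 1 ≤ n ∧ n ≤ N ∧ a < P n - P (n - 1) ∧ P n - P (n - 1) ≤ b) :
    (T.card : ℝ) ≤ ∑ h ∈ Ioc a b,
      (((Ioc 0 (0 + P N)).filter (fun n => n.Prime ∧ (n + h).Prime)).card : ℝ) := by
  classical
  have h1 : T.card ≤ ((Ioc a b ×ˢ Ioc 0 (0 + P N)).filter
      (fun z => z.2.Prime ∧ (z.2 + z.1).Prime)).card := by
    apply Finset.card_le_card_of_injOn (fun n => (P n - P (n - 1), P (n - 1)))
    · intro n hn
      obtain ⟨g1, g2, g3, g4⟩ := hT n (Finset.mem_coe.1 hn)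
      rw [Finset.mem_coe, mem_filter, mem_product, mem_Ioc, mem_Ioc]
      have g5 : P (n - 1) < P n := P_lt (by omega)
      have g6 : P (n - 1) ≤ P N := P_mono (by omega)
      have g7 := (P_prime (n - 1)).pos
      refine ⟨⟨⟨g3, g4⟩, g7, by simpa using g6⟩, P_prime _, ?_⟩
      show (P (n - 1) + (P n - P (n - 1))).Prime
      rw [show P (n - 1) + (P n - P (n - 1)) = P n by omega]
      exact P_prime n
    · intro n hn m hm hnm
      obtain ⟨g1, -⟩ := hT n (Finset.mem_coe.1 hn)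
      obtain ⟨g2, -⟩ := hT m (Finset.mem_coe.1 hm)
      simp only [Prod.mk.injEq] at hnm
      have := (Nat.nth_strictMono Nat.infinite_setOfPred_prime).injective hnm.2
      omega
  have h2 : ((Ioc a b ×ˢ Ioc 0 (0 + P N)).filter
      (fun z => z.2.Prime ∧ (z.2 + z.1).Prime)).card =
      ∑ h ∈ Ioc a b, ((Ioc 0 (0 + P N)).filter (fun n => n.Prime ∧ (n + h).Prime)).card := by
    rw [Finset.card_filter, Finset.sum_product]
    apply Finset.sum_congr rfl
    intro h _
    rw [Finset.card_filter]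
  rw [h2] at h1
  exact_mod_cast h1

open Classical in
/-- few gaps have normalised length in a short window -/
theorem count_window : ∃ C : ℝ, 1 ≤ C ∧ ∀ x y : ℝ, 0 ≤ x → x < y → ∀ ε : ℝ, 0 < ε →
    ∃ N₀ : ℕ, ∀ N : ℕ, N₀ ≤ N →
      (((Icc 2 N).filter (fun n => x ≤ gp n ∧ gp n < y)).card : ℝ) ≤ (C * (y - x) + ε) * N := by
  obtain ⟨C1, hC1, u0, hps⟩ := pair_sieve
  obtain ⟨Cw, hCw, hw⟩ := window_sum
  refine ⟨4 * C1 * Cw, by nlinarith, fun x y hx hxy ε hε => ?_⟩
  set K : ℝ := 4 * C1 * Cw with hK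
  have hK1 : 1 ≤ K := by rw [hK]; nlinarith
  have hy : 0 < y := by linarith
  set δ : ℝ := min (ε / 2) (1 / 2) with hδ
  have hδ0 : 0 < δ := lt_min (by linarith) (by norm_num)
  have hδ1 : δ ≤ 1 / 2 := min_le_right _ _
  have hδε : δ ≤ ε / 2 := min_le_left _ _
  set κ : ℝ := -Real.log δ with hκ
  have hκ0 : 0 ≤ κ := by
    have := Real.log_nonpos hδ0.le (by linarith)
    linarith
  set E : ℝ := x * κ + 1 with hE
  have hE0 : 0 < E := by positivity
  set L₀ : ℝ := max (max 1 (4 * E * K / ε)) ((4 * K * Real.sqrt y / ε) ^ 2) with hL₀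
  have hlim := (Real.tendsto_log_atTop.comp (tendsto_natCast_atTop_atTop (R := ℝ)))
  obtain ⟨N₀, hN₀⟩ := eventually_atTop.1 ((hlim.eventually_ge_atTop L₀).and
    (P_upper.and (eventually_ge_atTop (max 2 u0))))
  refine ⟨N₀, fun N hN => ?_⟩
  obtain ⟨hL, hPu, hN2⟩ := hN₀ N hN
  simp only [Function.comp_apply] at hL
  have hN2' : 2 ≤ N := (le_max_left _ _).trans hN2
  have hNu : u0 ≤ N := (le_max_right _ _).trans hN2
  have hNr : (2 : ℝ) ≤ N := by exact_mod_cast hN2'
  have hN0 : (0 : ℝ) < N := by linarith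
  set L : ℝ := Real.log N with hLdef
  have hL1 : 1 ≤ L := ((le_max_left _ _).trans (le_max_left _ _)).trans hL
  have hL0 : 0 < L := by linarith
  have hLE : E * K ≤ ε / 4 * L := by
    have h := ((le_max_right _ _).trans (le_max_left _ _)).trans hL
    rw [div_le_iff₀ hε] at h
    linarith
  have hLs : K * Real.sqrt (y * L) ≤ ε / 4 * L := by
    have h := (le_max_right _ _).trans hL
    have h1 : 4 * K * Real.sqrt y / ε ≤ Real.sqrt L := by
      have := Real.sqrt_le_sqrt h
      rwa [Real.sqrt_sq (by positivity)] at this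
    rw [div_le_iff₀ hε] at h1
    rw [Real.sqrt_mul hy.le]
    have h2 : Real.sqrt L * Real.sqrt L = L := Real.mul_self_sqrt hL0.le
    have h3 := mul_le_mul_of_nonneg_right h1 (Real.sqrt_nonneg L)
    nlinarith
  -- the window
  set R : ℝ := x * (L - κ) with hR
  set a : ℕ := ⌈R⌉₊ - 1 with ha
  set b : ℕ := ⌊y * L⌋₊ with hb
  have hbr : (b : ℝ) ≤ y * L := Nat.floor_le (by positivity)
  have har : R - 1 ≤ (a : ℝ) := by
    have h1 := Nat.le_ceil R
    have h2 : ⌈R⌉₊ ≤ a + 1 := by omega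
    have h3 : ((⌈R⌉₊ : ℕ) : ℝ) ≤ a + 1 := by exact_mod_cast h2
    linarith
  have hba : ((b - a : ℕ) : ℝ) ≤ (y - x) * L + E := by
    rcases le_total b a with h | h
    · rw [Nat.sub_eq_zero_of_le h, Nat.cast_zero]
      have : 0 ≤ (y - x) * L := mul_nonneg (by linarith) hL0.le
      linarith
    · rw [Nat.cast_sub h, hE]
      have : R = x * L - x * κ := by rw [hR]; ring
      nlinarith
  set T := (Icc 2 N).filter (fun n : ℕ => δ * N < n ∧ x ≤ gp n ∧ gp n < y) with hT
  have hTcard : (T.card : ℝ) ≤ ∑ h ∈ Ioc a b,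
      (((Ioc 0 (0 + P N)).filter (fun n => n.Prime ∧ (n + h).Prime)).card : ℝ) := by
    refine card_gaps N a b T fun n hn => ?_
    rw [hT, mem_filter, mem_Icc] at hn
    obtain ⟨⟨hn1, hn2⟩, hn3, hn4, hn5⟩ := hn
    have hnr : (2 : ℝ) ≤ n := by exact_mod_cast hn1
    have hlogn : 0 < Real.log n := Real.log_pos (by linarith)
    have hlt : P (n - 1) < P n := P_lt (by omega)
    have hgap : (((P n - P (n - 1) : ℕ)) : ℝ) = gp n * Real.log n := by
      rw [Nat.cast_sub hlt.le]
      unfold Pool.Agent.H361R2.PP.gp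
      rw [div_mul_cancel₀ _ hlogn.ne']
    have hlogL : Real.log n ≤ L :=
      Real.log_le_log (by linarith) (by exact_mod_cast hn2)
    have hlogκ : L - κ ≤ Real.log n := by
      have h1 : Real.log (δ * N) ≤ Real.log n := Real.log_le_log (by positivity) hn3.le
      rw [Real.log_mul hδ0.ne' hN0.ne'] at h1
      rw [hκ]
      linarith
    have h1 : R ≤ (((P n - P (n - 1) : ℕ)) : ℝ) := by
      rw [hgap, hR]
      have h2 : x * (L - κ) ≤ x * Real.log n := mul_le_mul_of_nonneg_left hlogκ hx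
      have h3 : x * Real.log n ≤ gp n * Real.log n := mul_le_mul_of_nonneg_right hn4 hlogn.le
      linarith
    have h2 : (((P n - P (n - 1) : ℕ)) : ℝ) ≤ y * L := by
      rw [hgap]
      have h2 : gp n * Real.log n ≤ y * Real.log n := mul_le_mul_of_nonneg_right hn5.le hlogn.le
      have h3 : y * Real.log n ≤ y * L := mul_le_mul_of_nonneg_left hlogL hy.le
      linarith
    have h3 : ⌈R⌉₊ ≤ P n - P (n - 1) := Nat.ceil_le.2 h1
    have h4 : P n - P (n - 1) ≤ b := Nat.le_floor h2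
    refine ⟨by omega, hn2, ?_, h4⟩
    have : 0 < P n - P (n - 1) := by omega
    omega
  -- the sieve
  have hu : u0 ≤ P N := hNu.trans (le_P N)
  have hlogu : L ≤ Real.log (P N) := Real.log_le_log hN0 (by exact_mod_cast le_P N)
  have hlogu0 : 0 < Real.log (P N) := by linarith
  have hratio : (P N : ℝ) / Real.log (P N) ^ 2 ≤ 4 * N / L := by
    rw [div_le_div_iff₀ (by positivity) hL0]
    have h1 : (P N : ℝ) ≤ 4 * N * Real.log (P N) := by
      have : 2 * ((N : ℝ) + 1) ≤ 4 * N := by linarith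
      nlinarith
    calc (P N : ℝ) * L ≤ (4 * N * Real.log (P N)) * Real.log (P N) :=
          mul_le_mul h1 hlogu hL0.le (by positivity)
      _ = 4 * N * Real.log (P N) ^ 2 := by ring
  have hsum : ∑ h ∈ Ioc a b,
      (((Ioc 0 (0 + P N)).filter (fun n => n.Prime ∧ (n + h).Prime)).card : ℝ) ≤
      C1 * (4 * N / L) * (Cw * (((b - a : ℕ) : ℝ) + Real.sqrt b)) := by
    calc ∑ h ∈ Ioc a b,
        (((Ioc 0 (0 + P N)).filter (fun n => n.Prime ∧ (n + h).Prime)).card : ℝ)
        ≤ ∑ h ∈ Ioc a b, C1 * ((P N : ℝ) / Real.log (P N) ^ 2) * sg h ^ 2 := by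
          refine Finset.sum_le_sum fun h hh => ?_
          rw [mem_Ioc] at hh
          refine (hps h 0 (P N) (by omega) hu).trans (le_of_eq ?_)
          ring
      _ = C1 * ((P N : ℝ) / Real.log (P N) ^ 2) * ∑ h ∈ Ioc a b, sg h ^ 2 := by
          rw [Finset.mul_sum]
      _ ≤ C1 * (4 * N / L) * (Cw * (((b - a : ℕ) : ℝ) + Real.sqrt b)) := by
          refine mul_le_mul (mul_le_mul_of_nonneg_left hratio (by linarith)) (hw a b)
            (Finset.sum_nonneg fun h _ => sq_nonneg _) (by positivity)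
  have hsb : Real.sqrt b ≤ Real.sqrt (y * L) := Real.sqrt_le_sqrt hbr
  have hfin : C1 * (4 * N / L) * (Cw * (((b - a : ℕ) : ℝ) + Real.sqrt b)) ≤
      (K * (y - x) + ε / 2) * N := by
    have h1 : C1 * (4 * N / L) * (Cw * (((b - a : ℕ) : ℝ) + Real.sqrt b)) ≤
        C1 * (4 * N / L) * (Cw * ((y - x) * L + E + Real.sqrt (y * L))) := by
      refine mul_le_mul_of_nonneg_left (mul_le_mul_of_nonneg_left (by linarith) (by linarith)) ?_
      have : 0 ≤ C1 := by linarith
      positivity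
    have h2 : C1 * (4 * N / L) * (Cw * ((y - x) * L + E + Real.sqrt (y * L))) =
        (K * (y - x) * L + (E * K + K * Real.sqrt (y * L))) / L * N := by
      rw [hK]
      field_simp
      ring
    have h3 : (K * (y - x) * L + (E * K + K * Real.sqrt (y * L))) / L ≤ K * (y - x) + ε / 2 := by
      rw [div_le_iff₀ hL0]
      nlinarith
    rw [h2] at h1
    exact h1.trans (mul_le_mul_of_nonneg_right h3 hN0.le)
  -- the small `n`
  have hsub : (Icc 2 N).filter (fun n => x ≤ gp n ∧ gp n < y) ⊆ Icc 1 ⌊δ * N⌋₊ ∪ T := by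
    intro n hn
    rw [mem_filter, mem_Icc] at hn
    rw [mem_union, mem_Icc, hT, mem_filter, mem_Icc]
    by_cases h : δ * N < n
    · exact Or.inr ⟨hn.1, h, hn.2⟩
    · push Not at h
      exact Or.inl ⟨by omega, Nat.le_floor h⟩
  have hc1 : (((Icc 2 N).filter (fun n => x ≤ gp n ∧ gp n < y)).card : ℝ) ≤
      (⌊δ * N⌋₊ : ℝ) + T.card := by
    have h1 := (card_le_card hsub).trans (card_union_le _ _)
    rw [Nat.card_Icc, Nat.add_sub_cancel] at h1
    exact_mod_cast h1
  have hc2 : (⌊δ * N⌋₊ : ℝ) ≤ δ * N := Nat.floor_le (by positivity)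
  have hc3 : δ * N ≤ ε / 2 * N := mul_le_mul_of_nonneg_right hδε hN0.le
  have hc4 := hTcard.trans (hsum.trans hfin)
  linarith

end Pool.Agent.R524.GD
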