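import Pool.Agent.H357R2.SI.PairFinal

/-!
# Mean squares of `σ(h) / h` in short windows (helper524)
-/

set_option autoImplicit false

open Finset Pool.Agent.H357R2.SI

namespace Pool.Agent.R524.GD

theorem sum_inv_sqrt (b : ℕ) : ∑ d ∈ Icc 1 b, (d : ℝ) ^ (-(1 / 2) : ℝ) ≤ 2 * Real.sqrt b := by
  induction b with
  | zero => simp
  | succ b ih =>
    rw [Finset.sum_Icc_succ_top (by omega)]
    have hb0 : (0 : ℝ) ≤ b := Nat.cast_nonneg b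
    have h1 : ((b + 1 : ℕ) : ℝ) ^ (-(1 / 2) : ℝ) = 1 / Real.sqrt ((b + 1 : ℕ) : ℝ) := by
      rw [Real.rpow_neg (by positivity), Real.sqrt_eq_rpow]
      exact (one_div _).symm
    rw [h1]
    set s := Real.sqrt (b : ℝ) with hs
    set t := Real.sqrt ((b + 1 : ℕ) : ℝ) with ht
    have hs2 : s ^ 2 = b := Real.sq_sqrt hb0
    have ht2 : t ^ 2 = b + 1 := by
      rw [ht, Real.sq_sqrt (by positivity)]
      push_cast
      ring
    have hs0 : 0 ≤ s := Real.sqrt_nonneg _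
    have ht0 : 0 < t := by
      rw [ht]
      exact Real.sqrt_pos.2 (by positivity)
    have hst : s ≤ t := by nlinarith
    have h2 : 1 / t ≤ 2 * (t - s) := by
      rw [div_le_iff₀ ht0]
      nlinarith
    linarith

theorem card_mult (a b d : ℕ) (hd : 0 < d) :
    (((Ioc a b).filter (fun h => d ∣ h)).card : ℝ) ≤ ((b - a : ℕ) : ℝ) / d + 1 := by
  rcases le_total b a with hab | hab
  · rw [Finset.Ioc_eq_empty (by omega)]
    simp
    positivity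
  have h1 : (Ioc a b).filter (fun h => d ∣ h) = (Ioc 0 b).filter (fun h => d ∣ h) \
      (Ioc 0 a).filter (fun h => d ∣ h) := by
    ext h
    simp only [mem_filter, mem_Ioc, mem_sdiff]
    constructor
    · rintro ⟨⟨h1, h2⟩, h3⟩
      exact ⟨⟨⟨by omega, h2⟩, h3⟩, fun h4 => by omega⟩
    · rintro ⟨⟨⟨h1, h2⟩, h3⟩, h4⟩
      refine ⟨⟨?_, h2⟩, h3⟩
      by_contra hcon
      exact h4 ⟨⟨h1, by omega⟩, h3⟩
  have h2 : (Ioc 0 a).filter (fun h => d ∣ h) ⊆ (Ioc 0 b).filter (fun h => d ∣ h) := by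
    intro h
    simp only [mem_filter, mem_Ioc]
    rintro ⟨⟨h1, h2⟩, h3⟩
    exact ⟨⟨h1, by omega⟩, h3⟩
  rw [h1, card_sdiff_of_subset h2, Nat.Ioc_filter_dvd_card_eq_div, Nat.Ioc_filter_dvd_card_eq_div]
  have h3 : b / d ≤ a / d + (b - a) / d + 1 := by
    have e : b = a + (b - a) := by omega
    conv_lhs => rw [e]
    rw [Nat.add_div hd]
    split_ifs <;> omega
  have h4 : b / d - a / d ≤ (b - a) / d + 1 := Nat.sub_le_iff_le_add.2 (by linarith)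
  have h5 : (((b - a) / d : ℕ) : ℝ) ≤ ((b - a : ℕ) : ℝ) / d := Nat.cast_div_le
  have h6 : ((b / d - a / d : ℕ) : ℝ) ≤ (((b - a) / d : ℕ) : ℝ) + 1 := by exact_mod_cast h4
  linarith

theorem window_sum : ∃ C : ℝ, 1 ≤ C ∧ ∀ a b : ℕ,
    ∑ h ∈ Ioc a b, sg h ^ 2 ≤ C * (((b - a : ℕ) : ℝ) + Real.sqrt b) := by
  have hsum : Summable (fun n : ℕ => (n : ℝ) ^ (-(3 / 2) : ℝ)) :=
    Real.summable_nat_rpow.mpr (by norm_num)
  set C₀ : ℝ := ∑' n : ℕ, (n : ℝ) ^ (-(3 / 2) : ℝ) with hC₀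
  have hC₀0 : 0 ≤ C₀ := tsum_nonneg (fun n => by positivity)
  have hpart : ∀ s : Finset ℕ, ∑ d ∈ s, (d : ℝ) ^ (-(3 / 2) : ℝ) ≤ C₀ :=
    fun s => hsum.sum_le_tsum s (fun n _ => by positivity)
  refine ⟨C₀ ^ 2 + 2 * C₀ + 1, by nlinarith, fun a b => ?_⟩
  -- Cauchy-Schwarz
  have h1 : ∀ h ∈ Ioc a b, sg h ^ 2 ≤ C₀ * ∑ d ∈ h.divisors, (d : ℝ) ^ (-(1 / 2) : ℝ) := by
    intro h _
    have h2 : sg h = ∑ d ∈ h.divisors, (d : ℝ) ^ (-(3 / 4) : ℝ) * (d : ℝ) ^ (-(1 / 4) : ℝ) := by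
      unfold sg
      apply Finset.sum_congr rfl
      intro d hd
      have hd0 : (0 : ℝ) < d := by exact_mod_cast Nat.pos_of_mem_divisors hd
      rw [← Real.rpow_add hd0, one_div, ← Real.rpow_neg_one]
      norm_num
    rw [h2]
    refine (Finset.sum_mul_sq_le_sq_mul_sq _ _ _).trans ?_
    have h3 : ∑ d ∈ h.divisors, ((d : ℝ) ^ (-(3 / 4) : ℝ)) ^ 2 =
        ∑ d ∈ h.divisors, (d : ℝ) ^ (-(3 / 2) : ℝ) := by
      apply Finset.sum_congr rfl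
      intro d _
      rw [← Real.rpow_natCast, ← Real.rpow_mul (Nat.cast_nonneg d)]
      norm_num
    have h4 : ∑ d ∈ h.divisors, ((d : ℝ) ^ (-(1 / 4) : ℝ)) ^ 2 =
        ∑ d ∈ h.divisors, (d : ℝ) ^ (-(1 / 2) : ℝ) := by
      apply Finset.sum_congr rfl
      intro d _
      rw [← Real.rpow_natCast, ← Real.rpow_mul (Nat.cast_nonneg d)]
      norm_num
    rw [h3, h4]
    apply mul_le_mul_of_nonneg_right (hpart _)
    exact Finset.sum_nonneg (fun _ _ => by positivity)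
  set D : ℝ := ((b - a : ℕ) : ℝ) with hD
  have hD0 : 0 ≤ D := Nat.cast_nonneg _
  have h5 : ∑ h ∈ Ioc a b, ∑ d ∈ h.divisors, (d : ℝ) ^ (-(1 / 2) : ℝ) ≤
      C₀ * D + 2 * Real.sqrt b := by
    have h6 : ∀ h ∈ Ioc a b, ∑ d ∈ h.divisors, (d : ℝ) ^ (-(1 / 2) : ℝ) =
        ∑ d ∈ Icc 1 b, if d ∣ h then (d : ℝ) ^ (-(1 / 2) : ℝ) else 0 := by
      intro h hh
      rw [Finset.mem_Ioc] at hh
      rw [← Finset.sum_filter]
      apply Finset.sum_congr _ (fun _ _ => rfl)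
      ext d
      rw [Nat.mem_divisors, Finset.mem_filter, Finset.mem_Icc]
      constructor
      · rintro ⟨h7, h8⟩
        exact ⟨⟨Nat.pos_of_dvd_of_pos h7 (by omega), (Nat.le_of_dvd (by omega) h7).trans hh.2⟩, h7⟩
      · rintro ⟨_, h8⟩
        exact ⟨h8, by omega⟩
    rw [Finset.sum_congr rfl h6, Finset.sum_comm]
    have h7 : ∀ d ∈ Icc 1 b, (∑ h ∈ Ioc a b, if d ∣ h then (d : ℝ) ^ (-(1 / 2) : ℝ) else 0) ≤
        D * (d : ℝ) ^ (-(3 / 2) : ℝ) + (d : ℝ) ^ (-(1 / 2) : ℝ) := by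
      intro d hd
      rw [Finset.mem_Icc] at hd
      have hd0 : (0 : ℝ) < d := by exact_mod_cast hd.1
      rw [← Finset.sum_filter, Finset.sum_const, nsmul_eq_mul]
      have h8 := card_mult a b d hd.1
      have h9 : (0 : ℝ) ≤ (d : ℝ) ^ (-(1 / 2) : ℝ) := by positivity
      have h10 : (d : ℝ) ^ (-(3 / 2) : ℝ) = (d : ℝ) ^ (-(1 / 2) : ℝ) / d := by
        rw [show (-(3 / 2) : ℝ) = -(1 / 2) - 1 by norm_num, Real.rpow_sub_one hd0.ne']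
      rw [h10]
      calc _ ≤ (D / d + 1) * (d : ℝ) ^ (-(1 / 2) : ℝ) := mul_le_mul_of_nonneg_right h8 h9
        _ = _ := by ring
    refine (Finset.sum_le_sum h7).trans ?_
    rw [Finset.sum_add_distrib, ← Finset.mul_sum]
    have h8 := mul_le_mul_of_nonneg_left (hpart (Icc 1 b)) hD0
    have h9 := sum_inv_sqrt b
    linarith
  have hs0 : 0 ≤ Real.sqrt (b : ℝ) := Real.sqrt_nonneg _
  calc ∑ h ∈ Ioc a b, sg h ^ 2 ≤ ∑ h ∈ Ioc a b, C₀ * ∑ d ∈ h.divisors, (d : ℝ) ^ (-(1 / 2) : ℝ) :=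
        Finset.sum_le_sum h1
    _ = C₀ * ∑ h ∈ Ioc a b, ∑ d ∈ h.divisors, (d : ℝ) ^ (-(1 / 2) : ℝ) := by rw [Finset.mul_sum]
    _ ≤ C₀ * (C₀ * D + 2 * Real.sqrt b) := mul_le_mul_of_nonneg_left h5 hC₀0
    _ ≤ (C₀ ^ 2 + 2 * C₀ + 1) * (D + Real.sqrt b) := by
      have e1 := mul_nonneg hC₀0 hD0
      have e2 : 0 ≤ C₀ ^ 2 * Real.sqrt b := by positivity
      nlinarith

end Pool.Agent.R524.GD
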